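import Pool.Agent.TH818.AP.Mv

/-!
# Grothendieck's period conjecture for almost all rational fibres of one-parameter families of products of elliptic
# curves, up to any given degree and height, with a measure

Let `α_n < ⋯ < α_0 < γ_0 < ⋯ < γ_n` and `s_j(t) = (t - α_j)/(γ_j - α_j)`. For `t` in `(α_0, γ_0)` all the `s_j(t)` are in
`(0, 1)`. Consider the family `X_t = E_{s_0(t)} × ⋯ × E_{s_n(t)}`, with `E_s : y² = x(x-1)(x-s)`. For rational `α_j`, `γ_j`, `t`
this is an abelian variety over `ℚ`, its field of periods is generated, up to algebraic numbers, by the `3(n+1) + 1` numbers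
`π`, `K(s_j(t))`, `E(s_j(t))`, `K(1 - s_j(t))`, and for general `t` its motivic Galois group has dimension `3(n+1) + 1`.
-/

set_option autoImplicit false

namespace Pool.Agent.Results.MP_caab05_ag.AlmostAllFibres

/-- Complete elliptic integral of the first kind, `K(t) = ∫_0^{π/2} dθ / √(1 - t sin² θ)`. -/
noncomputable def K (t : ℝ) : ℝ := ∫ θ in (0 : ℝ)..(Real.pi / 2), 1 / √(1 - t * Real.sin θ ^ 2)

/-- Complete elliptic integral of the second kind, `E(t) = ∫_0^{π/2} √(1 - t sin² θ) dθ`. -/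
noncomputable def E (t : ℝ) : ℝ := ∫ θ in (0 : ℝ)..(Real.pi / 2), √(1 - t * Real.sin θ ^ 2)

/-- The parameter `s_j(t)` of the `j`-th elliptic curve: the linear function with `s_j(α_j) = 0`, `s_j(γ_j) = 1`. -/
noncomputable def s {n : ℕ} (α γ : Fin n → ℝ) (j : Fin n) (t : ℝ) : ℝ := (t - α j) / (γ j - α j)

/-- The numbers `π`, `K(s_j(t))`, `E(s_j(t))`, `K(1 - s_j(t))`. -/
noncomputable def periods {n : ℕ} (α γ : Fin n → ℝ) (t : ℚ) (x : Option (Fin n × Fin 3)) : ℝ :=
  match x with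
  | none => Real.pi
  | some (j, i) => ![K (s α γ j t), E (s α γ j t), K (1 - s α γ j t)] i

/-- The rational numbers `t` in `[a, b]` with denominator at most `T` for which some nonzero polynomial in `3n + 1`
variables with integer coefficients of absolute value at most `T ^ A`, of degree at most `d` in each variable,
takes at the periods a value of absolute value at most `T ^ (-B)`. -/
def Exceptional {n : ℕ} (α γ : Fin n → ℝ) (d : ℕ) (a b A B T : ℝ) : Set ℚ :=
  {t | a ≤ t ∧ t ≤ b ∧ (t.den : ℝ) ≤ T ∧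
    ∃ P : MvPolynomial (Option (Fin n × Fin 3)) ℤ, P ≠ 0 ∧ (∀ x, P.degreeOf x ≤ d) ∧
      (∀ s, |((P.coeff s : ℤ) : ℝ)| ≤ T ^ A) ∧ |MvPolynomial.aeval (periods α γ t) P| ≤ T ^ (-B)}

/-- Let `α_n < ⋯ < α_0 < a < b < γ_0 < ⋯ < γ_n`, let `d` and `A ≥ 0` be given, and let
`β > 2 - 2 / ((d + 1)^(3(n + 1) + 1) + 1)`. There are `B` and `C` such that for all `T ≥ 1` the number of exceptional
rationals is at most `C T^β`. -/
theorem result (n d : ℕ) (α γ : Fin (n + 1) → ℝ) (hα : StrictAnti α) (hγ : StrictMono γ) (a b : ℝ)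
    (ha : α 0 < a) (hab : a < b) (hb : b < γ 0) (A β : ℝ) (hA : 0 ≤ A)
    (hβ : 2 - 2 / (((d : ℝ) + 1) ^ (3 * (n + 1) + 1) + 1) < β) :
    ∃ B C : ℝ, ∀ T : ℝ, 1 ≤ T → (Exceptional α γ d a b A B T).Finite ∧
      ((Exceptional α γ d a b A B T).ncard : ℝ) ≤ C * T ^ β := by
  obtain ⟨B, C, h⟩ := TH818.AP.nest_final n d α γ hα hγ a b ha hab hb A β hA hβ
  refine ⟨B, C, fun T hT => ?_⟩
  obtain ⟨hfin, hcard⟩ := h T hT
  have hpos : ∀ j, γ j - α j ≠ 0 := by
    intro j
    have h1 : α j ≤ α 0 := hα.antitone (Fin.zero_le j)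
    have h2 : γ 0 ≤ γ j := hγ.monotone (Fin.zero_le j)
    have : α 0 < γ 0 := ha.trans (hab.trans hb)
    have : 0 < γ j - α j := by linarith
    exact this.ne'
  have hsub : Exceptional α γ d a b A B T ⊆
      TH818.AP.ExcC (fun e : Fin (n + 1) → Fin 3 → Fin (d + 1) => TH818.AP.mon α γ e) a b A B T
        (fun e : Fin (d + 1) => Real.pi ^ (e : ℕ)) := by
    rintro t ⟨ht1, ht2, ht3, P, hP0, hPd, hPc, hPs⟩
    refine ⟨⟨ht1, ht2⟩, ht3, fun e => P.coeff (TH818.AP.sOf e),
      TH818.AP.coeff_ne P hP0 hPd, fun e => hPc _, ?_⟩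
    rw [TH818.AP.aeval_eq (periods α γ t) P hPd] at hPs
    refine le_trans (le_of_eq ?_) hPs
    congr 1
    refine Finset.sum_congr rfl fun e _ => ?_
    congr 1
    rw [mul_comm]
    simp only [TH818.AP.mon]
    congr 1
    refine Finset.prod_congr rfl fun j _ => ?_
    refine Finset.prod_congr rfl fun i _ => ?_
    congr 1
    have hs : 1 - s α γ j t = (γ j - t) / (γ j - α j) := by
      unfold s
      field_simp [hpos j]
      ring
    fin_cases i
    · simp [TH818.AP.KC, periods, K, s, TH818.AR.KK]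
    · simp [TH818.AP.KC, periods, E, s, TH818.AR.EE]
    · simp only [periods]
      rw [hs]
      simp [TH818.AP.KC, K, TH818.AR.KK]
  refine ⟨hfin.subset hsub, le_trans ?_ hcard⟩
  exact_mod_cast Set.ncard_le_ncard hsub hfin

end Pool.Agent.Results.MP_caab05_ag.AlmostAllFibres
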