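import Pool.Agent.TH590.JH.Pure

/-!
# The period conjecture and smooth affine cubic hypersurfaces
-/

set_option autoImplicit false

open CategoryTheory CategoryTheory.Limits CategoryTheory.MonoidalCategory AlgebraicGeometry
  Pool.Agent.TH90.Cub Pool.Agent.TH590.JH

namespace Pool.Agent.Results.MP_caab05_ag.CubicHypersurfaces

universe v u

attribute [local instance] Abelian.hasFiniteBiproducts

/-- The field of algebraic numbers. -/
abbrev Qbar : Type := AlgebraicClosure ℚ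

variable {𝓐 : Type u} [Category.{v} 𝓐] [Abelian 𝓐]

/-- The Tannakian subcategory generated by `N`: the smallest class of objects which contains `N`
and is closed under subquotients, direct sums, tensor products and duals. -/
inductive Gen [MonoidalCategory 𝓐] (N : 𝓐) : 𝓐 → Prop
  | self : Gen N N
  | sub {M M' : 𝓐} : Gen N M → SubQuot M' M → Gen N M'
  | sum {M M' : 𝓐} : Gen N M → Gen N M' → Gen N (M ⊞ M')
  | tensor {M M' : 𝓐} : Gen N M → Gen N M' → Gen N (M ⊗ M')
  | dual {M M' : 𝓐} : Gen N M → Nonempty (ExactPairing M M') → Gen N M'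

/-- The total cohomology of `X`: the direct sum of all `H^i(X)`. -/
def IsTotal (T : Theory Qbar 𝓐) {X : Scheme.{0}} (f : X ⟶ Spec (CommRingCat.of Qbar)) (M : 𝓐) :
    Prop :=
  ∃ m : ℕ, (∀ i : ℤ, (i < 0 ∨ m ≤ i) → IsZero (T.H i X f)) ∧
    Nonempty (M ≅ ⨁ fun i : Fin m => T.H (i : ℕ) X f)

/-- `M` is a finite direct sum of simple objects. -/
def Semisimple (M : 𝓐) : Prop :=
  ∃ (n : ℕ) (S : Fin n → 𝓐), (∀ a, Simple (S a)) ∧ Nonempty (M ≅ ⨁ S)

/-- All `H^i(Y)` belong to the Tannakian subcategory generated by `M`. -/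
def Dominates [MonoidalCategory 𝓐] (T : Theory Qbar 𝓐) (M : 𝓐) {Y : Scheme.{0}}
    (g : Y ⟶ Spec (CommRingCat.of Qbar)) : Prop :=
  ∀ i : ℤ, Gen M (T.H i Y g)

/-- For smooth projective `Y_1, …, Y_n` there is an irreducible smooth projective `X` (the product
of `ℙ¹` and of the connected components of the `Y_a`) such that the Tannakian subcategory generated
by the total cohomology `M` of `X` contains `ℚ(1)` and all `H^i(Y_a)` (Künneth formula). -/
def HasProducts [MonoidalCategory 𝓐] (T : Theory Qbar 𝓐) (Q1 : 𝓐) : Prop :=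
  ∀ (n : ℕ) (Y : Fin n → Scheme.{0}) (g : ∀ a, Y a ⟶ Spec (CommRingCat.of Qbar)),
    (∀ a, SmoothProjective (g a)) → ∃ (X : Scheme.{0}) (f : X ⟶ Spec (CommRingCat.of Qbar))
      (M : 𝓐), IrreducibleSpace X ∧ SmoothProjective f ∧ IsTotal T f M ∧ Gen M Q1 ∧
        ∀ a : Fin n, Dominates T M (g a)

/-- `ℚ(n)`, with `ℚ(0) = 1`, `ℚ(m) ⊗ ℚ(n) = ℚ(m + n)`, `ℚ(-1)` dual to `ℚ(1)` and
`M(n) = M ⊗ ℚ(n)`. -/
def TateObjects [MonoidalCategory 𝓐] (T : Theory Qbar 𝓐) (Q : ℤ → 𝓐) : Prop :=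
  Nonempty (Q 0 ≅ 𝟙_ 𝓐) ∧ (∀ m n : ℤ, Nonempty (Q m ⊗ Q n ≅ Q (m + n))) ∧
    Nonempty (ExactPairing (Q 1) (Q (-1))) ∧
      ∀ (n : ℤ) (M : 𝓐), Nonempty ((T.tw n).obj M ≅ M ⊗ Q n)

/-- A Tannakian theory of motives over the field of algebraic numbers. -/
structure Tannakian (𝓐 : Type u) [Category.{v} 𝓐] [Abelian 𝓐] [MonoidalCategory 𝓐] extends
    WeightTheory Qbar 𝓐 where
  /-- `ℚ(n)` -/
  Q : ℤ → 𝓐
  tate : TateObjects toTheory Q
  semisimple : ∀ {X : Scheme.{0}} (f : X ⟶ Spec (CommRingCat.of Qbar)), SmoothProjective f →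
    ∀ i : ℤ, Semisimple (H i X f)
  product : HasProducts toTheory (Q 1)

/-- The two sides of the period conjecture: the transcendence degree `trdeg M` of the field
generated by the periods of `M`, and the dimension `dimG M` of the motivic Galois group. -/
structure Periods (𝓐 : Type u) [Category.{v} 𝓐] [Abelian 𝓐] [MonoidalCategory 𝓐] where
  trdeg : 𝓐 → ℕ
  dimG : 𝓐 → ℕ
  le : ∀ M : 𝓐, trdeg M ≤ dimG M
  /-- if `M` belongs to the Tannakian subcategory generated by `N`, then the torsor of periods of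
  `N` maps to that of `M` with fibres of dimension `dimG N - dimG M` -/
  gen : ∀ N M : 𝓐, Gen N M → dimG M ≤ dimG N ∧ trdeg N + dimG M ≤ trdeg M + dimG N

/-- The period conjecture for `M`. -/
def Periods.Conj [MonoidalCategory 𝓐] (P : Periods 𝓐) (M : 𝓐) : Prop := P.trdeg M = P.dimG M

section

variable [MonoidalCategory 𝓐]

theorem Gen.iso {N M M' : 𝓐} (h : Gen N M) (e : M ≅ M') : Gen N M' :=
  h.sub ((SubQuot.refl M').of_iso e.symm)

theorem Gen.trans {N M L : 𝓐} (h : Gen N M) (h' : Gen M L) : Gen N L := by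
  induction h' with
  | self => exact h
  | sub _ hq ih => exact ih.sub hq
  | sum _ _ ih ih' => exact ih.sum ih'
  | tensor _ _ ih ih' => exact ih.tensor ih'
  | dual _ hd ih => exact ih.dual hd

theorem Periods.Conj.of_gen {P : Periods 𝓐} {N M : 𝓐} (hN : P.Conj N) (h : Gen N M) :
    P.Conj M := by
  obtain ⟨h1, h2⟩ := P.gen N M h
  have h3 := P.le M
  unfold Periods.Conj at hN ⊢
  omega

omit [MonoidalCategory 𝓐] in
/-- a summand is a subquotient -/
theorem subQuot_summand {n : ℕ} (S : Fin n → 𝓐) (a : Fin n) : SubQuot (S a) (⨁ S) :=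
  ⟨S a, biproduct.ι S a, 𝟙 _, inferInstance, inferInstance⟩

theorem Gen.zero {N Z : 𝓐} (hZ : IsZero Z) : Gen N Z :=
  Gen.self.sub ⟨Z, 0, 𝟙 Z, ⟨fun _ _ _ => hZ.eq_of_tgt _ _⟩, inferInstance⟩

theorem Gen.biproduct {N : 𝓐} : ∀ (n : ℕ) (S : Fin n → 𝓐), (∀ a, Gen N (S a)) → Gen N (⨁ S)
  | 0, S, _ => Gen.zero (by
      rw [IsZero.iff_id_eq_zero]
      exact biproduct.hom_ext' _ _ fun a => a.elim0)
  | n + 1, S, h => by
      have h1 : Gen N (⨁ fun a : Fin n => S a.succ) :=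
        Gen.biproduct n (fun a => S a.succ) fun a => h _
      have h2 := (h 0).sum h1
      -- `⨁ S` is a quotient of `S 0 ⊞ ⨁ S (succ a)`
      refine h2.sub ⟨_, 𝟙 _, biprod.desc (biproduct.ι S 0)
        (biproduct.desc fun a => biproduct.ι S a.succ), inferInstance, ?_⟩
      constructor
      intro Z u w huw
      refine biproduct.hom_ext' _ _ fun a => ?_
      refine Fin.cases ?_ (fun b => ?_) a
      · have h3 := congrArg (fun q => biprod.inl ≫ q) huw
        simpa using h3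
      · have h3 := congrArg (fun q => biproduct.ι (fun a : Fin n => S a.succ) b ≫
          biprod.inr ≫ q) huw
        simpa using h3

variable (T : Tannakian 𝓐)

theorem gen_Q_neg {N : 𝓐} (h : Gen N (T.Q 1)) (n : ℕ) : Gen N (T.Q (-(n : ℤ))) ∧
    Gen N (T.Q (n : ℤ)) := by
  have hm : Gen N (T.Q (-1)) := h.dual T.tate.2.2.1
  have h0 : Gen N (T.Q 0) := by
    obtain ⟨e⟩ := T.tate.2.1 1 (-1)
    exact (h.tensor hm).iso (e.trans (eqToIso (by norm_num)))
  induction n with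
  | zero => simpa using h0
  | succ n ih =>
    obtain ⟨h1, h2⟩ := ih
    obtain ⟨e⟩ := T.tate.2.1 (-(n : ℤ)) (-1)
    obtain ⟨e'⟩ := T.tate.2.1 (n : ℤ) 1
    refine ⟨(h1.tensor hm).iso (e.trans (eqToIso ?_)), (h2.tensor h).iso (e'.trans (eqToIso ?_))⟩
    · congr 1
      push_cast
      ring
    · congr 1

theorem gen_tw {N M : 𝓐} (h : Gen N (T.Q 1)) (hM : Gen N M) (n : ℤ) :
    Gen N ((T.tw n).obj M) := by
  have hQ : Gen N (T.Q n) := by
    obtain ⟨m, rfl | rfl⟩ := Int.eq_nat_or_neg n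
    · exact (gen_Q_neg T h m).2
    · exact (gen_Q_neg T h m).1
  obtain ⟨e⟩ := T.tate.2.2.2 n M
  exact (hM.tensor hQ).iso e.symm

theorem gen_untw {N M : 𝓐} (h : Gen N (T.Q 1)) (n : ℤ) (hM : Gen N ((T.tw n).obj M)) :
    Gen N M := by
  obtain ⟨e⟩ := T.twIso n (-n) (by ring)
  exact (gen_tw T h hM (-n)).iso (e.app M)

end

/-- The period conjecture for all irreducible smooth projective varieties. -/
def ConjVarieties [MonoidalCategory 𝓐] (T : Theory Qbar 𝓐) (P : Periods 𝓐) : Prop :=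
  ∀ (X : Scheme.{0}) (f : X ⟶ Spec (CommRingCat.of Qbar)) (M : 𝓐), IrreducibleSpace X →
    SmoothProjective f → IsTotal T f M → P.Conj M

/-- The period conjecture for the sums `ℚ(1) ⊕ V_1 ⊕ ⋯ ⊕ V_n` of simple subquotients `V_a` of
motives `H_c^j(C)(m)`, `C` a cubic hypersurface with constants in `S`. -/
def ConjConstituents [MonoidalCategory 𝓐] (T : Theory Qbar 𝓐) (Q1 : 𝓐) (P : Periods 𝓐)
    (S : Set Qbar) : Prop :=
  ∀ (n : ℕ) (V : Fin n → 𝓐), (∀ a, Simple (V a) ∧ T.FromCubic S (V a)) → P.Conj (Q1 ⊞ ⨁ V)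

/-- The period conjecture for the sums `ℚ(1) ⊕ H_c^{j_1}(C_1) ⊕ ⋯ ⊕ H_c^{j_n}(C_n)`. -/
def ConjCubics [MonoidalCategory 𝓐] (T : Theory Qbar 𝓐) (Q1 : 𝓐) (P : Periods 𝓐)
    (S : Set Qbar) : Prop :=
  ∀ (n : ℕ) (V : Fin n → 𝓐), (∀ a, T.IsHC S (V a)) → P.Conj (Q1 ⊞ ⨁ V)

/-- **The period conjecture and smooth affine cubic hypersurfaces.** Let `S` be a set of algebraic
numbers which contains `1` and generates the field of algebraic numbers (for example the set of all
algebraic numbers), and let `C` denote the hypersurfaces `g_0 t_0 + ⋯ + g_r t_r = 1` in affine spaces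
with the coordinates `x_1, …, x_n, t_0, …, t_r`, each `g_i` being of the form `x_a x_b - x_c`,
`x_a + x_b - x_c` or `x_a - s` with `s ∈ S`. They are smooth.

* The period conjecture holds for all irreducible smooth projective varieties `X` if and only if it
  holds for `ℚ(1) ⊕ V_1 ⊕ ⋯ ⊕ V_n` for all finite families of simple subquotients `V_a` of motives
  `H_c^j(C)(m)`.
* Both hold if the period conjecture holds for `ℚ(1) ⊕ H_c^{j_1}(C_1) ⊕ ⋯ ⊕ H_c^{j_n}(C_n)` for all
  finite families of such hypersurfaces. -/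
theorem result [MonoidalCategory 𝓐] (T : Tannakian 𝓐) (P : Periods 𝓐) (S : Set Qbar)
    (hS : Subfield.closure S = ⊤) (h1 : (1 : Qbar) ∈ S) :
    (ConjVarieties T.toTheory P ↔ ConjConstituents T.toTheory (T.Q 1) P S) ∧
    (ConjCubics T.toTheory (T.Q 1) P S → ConjVarieties T.toTheory P) ∧
    CubicsSmooth Qbar := by
  have hmain : ConjConstituents T.toTheory (T.Q 1) P S → ConjVarieties T.toTheory P := by
    intro h X f M hX hf hM
    -- the simple constituents of the `H^i(X)`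
    obtain ⟨m, -, ⟨e⟩⟩ := hM
    choose n V hV hiso using fun i : Fin m => T.semisimple f hf (i : ℕ)
    -- collect all of them in one family
    have hfin : ∀ (m : ℕ) (n : Fin m → ℕ), ∃ (N : ℕ) (φ : Fin N → Σ i, Fin (n i)),
        Function.Surjective φ := by
      intro m n
      obtain ⟨N, ⟨ψ⟩⟩ := Finite.exists_equiv_fin (Σ i, Fin (n i))
      exact ⟨N, ψ.symm, ψ.symm.surjective⟩
    obtain ⟨N, φ, hφ⟩ := hfin m n
    have hsub : ∀ (i : Fin m) (b : Fin (n i)), SubQuot (V i b) (T.H (i : ℕ) X f) := by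
      intro i b
      obtain ⟨e'⟩ := hiso i
      exact (subQuot_summand (V i) b).of_iso e'.symm
    have hcub : ∀ (i : Fin m) (b : Fin (n i)), T.FromCubic S (V i b) := by
      intro i b
      obtain ⟨e0⟩ := T.tw_zero
      exact T.fromCubic hS h1 f hf.ft (i : ℕ) 0 _ (hV i b) ((hsub i b).of_iso (e0.symm.app _))
    have h3 := h N (fun a => V (φ a).1 (φ a).2) fun a => ⟨hV _ _, hcub _ _⟩
    refine h3.of_gen ?_
    have h4 : Gen (T.Q 1 ⊞ ⨁ fun a => V (φ a).1 (φ a).2) (⨁ fun a => V (φ a).1 (φ a).2) :=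
      Gen.self.sub ⟨_, biprod.inr, 𝟙 _, inferInstance, inferInstance⟩
    refine (Gen.biproduct m _ fun i => ?_).iso e.symm
    obtain ⟨e'⟩ := hiso i
    refine (Gen.biproduct (n i) (V i) fun b => ?_).iso e'.symm
    obtain ⟨a, ha⟩ := hφ ⟨i, b⟩
    have h5 := h4.sub (subQuot_summand (fun a => V (φ a).1 (φ a).2) a)
    rw [ha] at h5
    exact h5
  have hcub : ConjCubics T.toTheory (T.Q 1) P S → ConjConstituents T.toTheory (T.Q 1) P S := by
    intro h n V hV
    choose ν ρ g hg j m hq using fun a => (hV a).2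
    have h2 := h n (fun a => T.HC (j a) (g a)) fun a => ⟨ν a, ρ a, g a, j a, hg a, rfl⟩
    have hQ : Gen (T.Q 1 ⊞ ⨁ fun a => T.HC (j a) (g a)) (T.Q 1) :=
      Gen.self.sub ⟨_, biprod.inl, 𝟙 _, inferInstance, inferInstance⟩
    refine h2.of_gen (Gen.sum hQ (Gen.biproduct n V fun a => ?_))
    have h4 : Gen (T.Q 1 ⊞ ⨁ fun a => T.HC (j a) (g a)) (T.HC (j a) (g a)) :=
      (Gen.self.sub ⟨_, biprod.inr, 𝟙 _, inferInstance, inferInstance⟩).sub
        (subQuot_summand (fun a => T.HC (j a) (g a)) a)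
    exact (gen_tw T hQ h4 (m a)).sub (hq a)
  refine ⟨⟨fun h n V hV => ?_, hmain⟩, fun h => hmain (hcub h), cubicsSmooth Qbar⟩
  -- every `V a` is a subquotient of `H^i(Y a)(m)`
  have h2 : ∀ a, ∃ (Y : Scheme.{0}) (g : Y ⟶ Spec (CommRingCat.of Qbar)) (i m : ℤ),
      SmoothProjective g ∧ SubQuot (V a) ((T.tw m).obj (T.H i Y g)) := by
    intro a
    obtain ⟨w, n', S', hS', ⟨e⟩⟩ := T.pure_of_cubic (hV a).1 (hV a).2
    have hne : ∃ b, biproduct.ι S' b ≫ e.inv ≠ 0 := by
      by_contra hcon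
      push Not at hcon
      have h1 : e.inv = 0 := biproduct.hom_ext' _ _ fun a => by rw [hcon a, comp_zero]
      have h2 : 𝟙 (V a) = 0 := by rw [← e.hom_inv_id, h1, comp_zero]
      have := (hV a).1
      exact id_nonzero (V a) h2
    obtain ⟨b, hb⟩ := hne
    have := (hS' b).1
    have := (hV a).1
    have hiso : IsIso (biproduct.ι S' b ≫ e.inv) := isIso_of_hom_simple hb
    obtain ⟨Y, g, i, m, hg, -, hq⟩ := (hS' b).2
    exact ⟨Y, g, i, m, hg, hq.of_iso_left (asIso (biproduct.ι S' b ≫ e.inv))⟩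
  choose Y g i m hg hq using h2
  obtain ⟨X, f, M, hX, hf, hM, hQ, hH⟩ := T.product n Y g hg
  refine (h X f M hX hf hM).of_gen (hQ.sum (Gen.biproduct n V fun a => ?_))
  exact (gen_tw T hQ (hH a (i a)) (m a)).sub (hq a)

end Pool.Agent.Results.MP_caab05_ag.CubicHypersurfaces
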