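import Pool.Agent.TH164.Spin.Pr7
import Pool.Agent.H297R2.InBakerThm

/-!
# Products of K3 surfaces: no smaller torsor contains the periods

Let `X_j`, `j ∈ J`, be at least two K3 surfaces (or hyperkähler varieties) over the field of
algebraic numbers, let `T_j` be the transcendental part of `H²(X_j)(1)` and let `n_j` be its
dimension. Suppose that the endomorphisms of the Hodge structure `T_j` are the rational numbers and
that the Kuga-Satake varieties `A_j` of the `T_j` have no common isogeny factors. Suppose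
`n_j ≥ 3`, `n_j ≠ 4, 5`, and that `n_j = 8` for at most one `j`. By Zarhin the Mumford-Tate group of
`h¹(A_j)` is `GSpin(T_j)`, and the motivic group of the product of all `A_j` (and, up to isogeny and
Tate twist, that of the product of the `X_j`) is `G = G_m · ∏ Spin(T_j)`.

Let `S_j` be the spin representation. In an algebraic basis of the Betti realization of `S_j`, the
space `T_j` is spanned by matrices `Γ j 1, …, Γ j n_j` with algebraic entries that satisfy the
Clifford relations and generate the algebra of all matrices. Choose an algebraic basis of the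
de Rham realization of the sum of the `S_j` which corresponds to the Betti basis under an algebraic
point of the motivic torsor, and let `P` be the period matrix. (The entries of `P` generate over the
algebraic numbers the field of periods of the product of the `A_j`, since the `h¹(A_j)` are, with
algebraic coefficients, sums of summands of the `S_j` in which each of them occurs.)

* `hDeligne`: the matrix `P` belongs to `G` (Deligne: Hodge classes on abelian varieties are
  absolute Hodge classes; André: they are motivated), and the relation of Legendre gives the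
  determinant.
* `hWustholz`: all linear relations with algebraic coefficients between the entries of `P` hold for
  the product of the even Clifford algebras (Wüstholz: the linear relations between the periods
  of an abelian variety are given by its endomorphisms; it is applied to the product of the `A_j`).

The theorem: `G` is contained in each algebraic subgroup over the algebraic numbers that has a torsor
which contains the period matrix.

The reason is algebraic: a Lie subalgebra of the sum of the `so(n_j)` which generates the product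
of the even Clifford algebras is the whole sum. For one `j` this is the classification of the
subalgebras of `so(n)` which act on the spin representation like `so(n)`. For several `j` it is
Goursat's lemma, the simplicity of `so(n)`, `n ≠ 4`, and the theorem that each isomorphism
`so(n) → so(m)` comes from an intertwiner of the spin representations, unless `n = m = 8`.
-/

set_option autoImplicit false
set_option linter.unusedSectionVars false

namespace Pool.Agent.Results.MP_caab05_ag.ProductsOfK3Surfaces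

open Matrix

section defs

variable {N : Type} [Fintype N] [DecidableEq N] {n : ℕ}

/-- Matrices with algebraic entries which satisfy the relations of Clifford,
`Γᵢ² = 1` and `Γᵢ Γⱼ = - Γⱼ Γᵢ`, and generate the algebra of all matrices. -/
structure IsSpinSystem (Γ : Fin n → Matrix N N ℂ) : Prop where
  algebraic : ∀ i a b, IsAlgebraic ℚ (Γ i a b)
  sq : ∀ i, Γ i * Γ i = 1
  anti : ∀ i j, i ≠ j → Γ i * Γ j = -(Γ j * Γ i)
  generate : Algebra.adjoin ℂ (Set.range Γ) = ⊤

/-- The space `T` of vectors. -/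
def vectors (Γ : Fin n → Matrix N N ℂ) : Submodule ℂ (Matrix N N ℂ) :=
  Submodule.span ℂ (Set.range Γ)

/-- The even Clifford algebra. -/
def evenClifford (Γ : Fin n → Matrix N N ℂ) : Subalgebra ℂ (Matrix N N ℂ) :=
  Algebra.adjoin ℂ {x | ∃ i j, x = Γ i * Γ j}

/-- The group `Spin(T)`, generated by the products of two vectors of square one. -/
def spin (Γ : Fin n → Matrix N N ℂ) : Subgroup (GL N ℂ) :=
  Subgroup.closure {g | ∃ t ∈ vectors Γ, ∃ s ∈ vectors Γ, t * t = 1 ∧ s * s = 1 ∧ g.val = t * s}

variable {J : Type} [Fintype J] [DecidableEq J] {n : J → ℕ} {N : J → Type}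
  [∀ j, Fintype (N j)] [∀ j, DecidableEq (N j)]

/-- The block diagonal matrices `c · (g_j)_j` with `c ≠ 0` and `g_j ∈ Spin(T_j)`. -/
def InG (Γ : ∀ j, Fin (n j) → Matrix (N j) (N j) ℂ) (g : GL (Σ j, N j) ℂ) : Prop :=
  ∃ c : ℂ, c ≠ 0 ∧ ∃ u : ∀ j, GL (N j) ℂ, (∀ j, u j ∈ spin (Γ j)) ∧
    g.val = c • Matrix.blockDiagonal' fun j => (u j).val

theorem inG_mul {Γ : ∀ j, Fin (n j) → Matrix (N j) (N j) ℂ} {x y : GL (Σ j, N j) ℂ}
    (hx : InG Γ x) (hy : InG Γ y) : InG Γ (x * y) := by
  obtain ⟨c, hc, u, hu, hx⟩ := hx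
  obtain ⟨c', hc', v, hv, hy⟩ := hy
  refine ⟨c * c', mul_ne_zero hc hc', fun j => u j * v j, fun j => mul_mem (hu j) (hv j), ?_⟩
  rw [Units.val_mul, hx, hy, Matrix.smul_mul, Matrix.mul_smul, smul_smul,
    ← Matrix.blockDiagonal'_mul]
  rfl

theorem inG_one (Γ : ∀ j, Fin (n j) → Matrix (N j) (N j) ℂ) : InG Γ 1 := by
  refine ⟨1, one_ne_zero, fun j => 1, fun j => one_mem _, ?_⟩
  rw [one_smul]
  exact (Matrix.blockDiagonal'_one (α := ℂ)).symm

theorem inG_inv {Γ : ∀ j, Fin (n j) → Matrix (N j) (N j) ℂ} {x : GL (Σ j, N j) ℂ}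
    (hx : InG Γ x) : InG Γ x⁻¹ := by
  obtain ⟨c, hc, u, hu, hx⟩ := hx
  refine ⟨c⁻¹, inv_ne_zero hc, fun j => (u j)⁻¹, fun j => inv_mem (hu j), ?_⟩
  have h1 : x.val * (c⁻¹ • Matrix.blockDiagonal' fun j => ((u j)⁻¹).val) = 1 := by
    rw [hx, Matrix.smul_mul, Matrix.mul_smul, smul_smul, mul_inv_cancel₀ hc, one_smul,
      ← Matrix.blockDiagonal'_mul]
    have h2 : (fun j => (u j).val * ((u j)⁻¹).val) = (1 : ∀ j, Matrix (N j) (N j) ℂ) := by
      funext j
      rw [← Units.val_mul, mul_inv_cancel, Units.val_one, Pi.one_apply]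
    rw [h2, Matrix.blockDiagonal'_one]
  calc (x⁻¹).val = (x⁻¹).val * (x.val * (c⁻¹ • Matrix.blockDiagonal' fun j =>
        ((u j)⁻¹).val)) := by rw [h1, Matrix.mul_one]
    _ = _ := by rw [← Matrix.mul_assoc, ← Units.val_mul, inv_mul_cancel, Units.val_one,
      Matrix.one_mul]

/-- The group `G = G_m · ∏ Spin(T_j)`. -/
def motivicGroup (Γ : ∀ j, Fin (n j) → Matrix (N j) (N j) ℂ) : Subgroup (GL (Σ j, N j) ℂ) where
  carrier := {g | InG Γ g}
  mul_mem' := inG_mul
  one_mem' := inG_one Γ
  inv_mem' := inG_inv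

/-- All linear relations with algebraic coefficients between the entries of the blocks of `P` hold
for the product of the even Clifford algebras. -/
def OnlyCliffordRelations (Γ : ∀ j, Fin (n j) → Matrix (N j) (N j) ℂ)
    (P : Matrix (Σ j, N j) (Σ j, N j) ℂ) : Prop :=
  ∀ B : ∀ j, Matrix (N j) (N j) ℂ, (∀ j a b, IsAlgebraic ℚ (B j a b)) →
    ∑ j, ∑ a, ∑ b, B j a b * P ⟨j, a⟩ ⟨j, b⟩ = 0 →
    ∀ j, ∀ x ∈ evenClifford (Γ j), ∑ a, ∑ b, B j a b * x a b = 0

/-- A subgroup of `GL_N(ℂ)` defined by polynomials with algebraic coefficients. -/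
def IsAlgebraicSubgroup {N : Type} [Fintype N] [DecidableEq N] (H : Subgroup (GL N ℂ)) : Prop :=
  ∃ I : Set (MvPolynomial (N × N) ℂ), (∀ p ∈ I, ∀ m, IsAlgebraic ℚ (p.coeff m)) ∧
    ∀ g : GL N ℂ, g ∈ H ↔ ∀ p ∈ I, MvPolynomial.eval (fun b => (g : Matrix N N ℂ) b.1 b.2) p = 0

/-- The matrix `P` belongs to a torsor `H · A⁻¹` of `H` defined over the algebraic numbers. -/
def HasPoint {N : Type} [Fintype N] [DecidableEq N] (P : Matrix N N ℂ)
    (H : Subgroup (GL N ℂ)) : Prop :=
  ∃ A : Matrix N N ℂ, (∀ i j, IsAlgebraic ℚ (A i j)) ∧ ∃ g ∈ H, (g : Matrix N N ℂ) = P * A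

end defs

section proof

open Pool.Agent.TH164.Spin Pool.Agent.TH119.MX

theorem two_pi_I_transcendental : ¬ IsAlgebraic ℚ (2 * Real.pi * Complex.I : ℂ) := by
  intro h
  have h1 := Pool.Agent.H297R2.baker_inhom (ι := Unit) (fun _ => 2 * Real.pi * Complex.I)
    (fun _ => by
      rw [Complex.exp_two_pi_mul_I]
      exact isAlgebraic_one)
    (LinearIndependent.of_subsingleton (R := ℚ) () Complex.two_pi_I_ne_zero)
    (-(2 * Real.pi * Complex.I)) h.neg (fun _ => 1) (fun _ => isAlgebraic_one) (by simp)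
  exact one_ne_zero (h1.2 ())

theorem cl_of {N : Type} [Fintype N] [DecidableEq N] {n : ℕ} {Γ : Fin n → Matrix N N ℂ}
    [Nonempty N] (h : IsSpinSystem Γ) : Cl Γ where
  rel i j := by
    by_cases hij : i = j
    · rw [if_pos hij, hij, h.sq, two_smul]
    · rw [if_neg hij, zero_smul, h.anti i j hij, neg_add_cancel]
  gen := h.generate

end proof

/-- **Theorem.** For `j ∈ J`, where `J` has at least two elements, let `Γ j 1, …, Γ j n_j` be
matrices with algebraic entries which satisfy the Clifford relations and generate the algebra of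
all matrices of their size `N_j` (the spin representation), `n_j ≥ 3`, `n_j ≠ 4, 5`, and `n_j = 8`
for at most one `j`. Let `P` be a point of the group `G = G_m · ∏ Spin(T_j)`, with the determinant of
the relation of Legendre, such that all linear relations with algebraic coefficients between the
entries of `P` hold for the product of the even Clifford algebras. Then `G` is contained in every
algebraic subgroup `H` of `GL`, defined over the algebraic numbers, which has a torsor over the
algebraic numbers which contains `P`. -/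
theorem result {J : Type} [Fintype J] [DecidableEq J] [Nontrivial J] {n : J → ℕ} {N : J → Type}
    [∀ j, Fintype (N j)] [∀ j, DecidableEq (N j)] [∀ j, Nonempty (N j)]
    (h3 : ∀ j, 3 ≤ n j) (h4 : ∀ j, n j ≠ 4) (h5 : ∀ j, n j ≠ 5)
    (h8 : ∀ i j, n i = 8 → n j = 8 → i = j)
    (Γ : ∀ j, Fin (n j) → Matrix (N j) (N j) ℂ) (hΓ : ∀ j, IsSpinSystem (Γ j))
    (P : GL (Σ j, N j) ℂ) (hDeligne : P ∈ motivicGroup Γ)
    (hLegendre : P.val.det ^ 2 = (2 * Real.pi * Complex.I) ^ Fintype.card (Σ j, N j))
    (hWustholz : OnlyCliffordRelations Γ P.val) :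
    ∀ H : Subgroup (GL (Σ j, N j) ℂ), IsAlgebraicSubgroup H → HasPoint P.val H →
      motivicGroup Γ ≤ H := by
  rintro H hH ⟨B, hB, g₁, hg₁, hPB⟩
  have hcl := fun j => cl_of (hΓ j)
  have hB0 : B.det ≠ 0 := by
    have h4 := (Matrix.isUnit_iff_isUnit_det _).1 g₁.isUnit
    rw [hPB, det_mul, isUnit_iff_ne_zero] at h4
    exact right_ne_zero_of_mul h4
  have hB1 : B * B⁻¹ = 1 := Matrix.mul_nonsing_inv _ (isUnit_iff_ne_zero.2 hB0)
  have hHal : Pool.Agent.TH119.MX.AlgGrp Pool.Agent.TH164.A1.QA (Pool.Agent.TH164.A1.carr H) := by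
    refine Pool.Agent.TH164.A1.algGrp_carr ?_
    obtain ⟨I, h4, h6⟩ := hH
    exact ⟨I, fun p hp m => Pool.Agent.TH164.A1.mem_QA.2 (h4 p hp m), h6⟩
  haveI : Nonempty (Σ j, N j) := ⟨⟨Classical.arbitrary J, Classical.arbitrary _⟩⟩
  have hdetP : ¬ IsAlgebraic ℚ P.val.det := by
    intro h4
    have h6 : IsAlgebraic ℚ ((2 * Real.pi * Complex.I : ℂ) ^ Fintype.card (Σ j, N j)) := by
      rw [← hLegendre]
      exact h4.pow 2
    exact two_pi_I_transcendental (h6.of_pow Fintype.card_pos)
  obtain ⟨c, hc, u, hu, hPu⟩ := hDeligne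
  have hQ := fun j => Pool.Agent.TH164.Spin.SpG_QS (hcl j) (hΓ j).algebraic (hu j)
  have hPi : (P⁻¹).val = c⁻¹ • Pool.Agent.TH164.Spin.bd fun j => ((u j)⁻¹).val := by
    obtain ⟨c', hc', v, hv, hPv⟩ := inG_inv (Γ := Γ) (x := P) ⟨c, hc, u, hu, hPu⟩
    have h1 : P.val * (c⁻¹ • Pool.Agent.TH164.Spin.bd fun j => ((u j)⁻¹).val) = 1 := by
      rw [hPu, Matrix.smul_mul, Matrix.mul_smul, smul_smul, mul_inv_cancel₀ hc, one_smul,
        Pool.Agent.TH164.Spin.bd_apply, ← Matrix.blockDiagonal'_mul]
      have h2 : (fun j => (u j).val * ((u j)⁻¹).val) = (1 : ∀ j, Matrix (N j) (N j) ℂ) := by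
        funext j
        rw [← Units.val_mul, mul_inv_cancel, Units.val_one, Pi.one_apply]
      rw [h2, Matrix.blockDiagonal'_one]
    calc (P⁻¹).val = (P⁻¹).val * (P.val * (c⁻¹ • Pool.Agent.TH164.Spin.bd fun j =>
          ((u j)⁻¹).val)) := by rw [h1, Matrix.mul_one]
      _ = _ := by rw [← Matrix.mul_assoc, ← Units.val_mul, inv_mul_cancel, Units.val_one,
        Matrix.one_mul]
  have hder : ∀ δ : Derivation ℚ ℂ ℂ, ∃ y : ∀ j, Matrix (N j) (N j) ℂ,
      (∀ j, y j ∈ Pool.Agent.TH164.Spin.La (Γ j)) ∧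
      ∃ c : ℂ, P.val.map δ * (P⁻¹).val = Pool.Agent.TH164.Spin.bd y + c • 1 := by
    intro δ
    refine ⟨fun j => (u j).val.map δ * ((u j)⁻¹).val, fun j => (hQ j).1.2.1 δ, δ c * c⁻¹, ?_⟩
    have e1 : P.val.map δ = c • Pool.Agent.TH164.Spin.bd (fun j => (u j).val.map δ) +
        δ c • Pool.Agent.TH164.Spin.bd (fun j => (u j).val) := by
      rw [hPu, Pool.Agent.TH164.Spin.map_smul_der, ← Pool.Agent.TH164.Spin.bd_apply,
        Pool.Agent.TH164.Spin.bd_map, add_comm]
    have e2 : (fun j => (u j).val.map δ) * (fun j => ((u j)⁻¹).val) =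
        (fun j => (u j).val.map δ * ((u j)⁻¹).val : ∀ j, Matrix (N j) (N j) ℂ) := rfl
    have e3 : (fun j => (u j).val) * (fun j => ((u j)⁻¹).val) =
        (1 : ∀ j, Matrix (N j) (N j) ℂ) := by
      funext j
      rw [Pi.mul_apply, ← Units.val_mul, mul_inv_cancel, Units.val_one, Pi.one_apply]
    rw [e1, hPi, Matrix.add_mul, Matrix.smul_mul, Matrix.mul_smul, ← map_mul, e2, smul_smul,
      mul_inv_cancel₀ hc, one_smul, Matrix.smul_mul, Matrix.mul_smul, ← map_mul, e3, smul_smul,
      map_one]
  have hPE : P.val ∈ Pool.Agent.TH164.Spin.Eb Γ := by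
    rw [hPu]
    refine Subalgebra.smul_mem (Pool.Agent.TH164.Spin.Eb Γ) ?_ c
    exact ⟨fun j => (u j).val, fun j => (hQ j).1.2.2, rfl⟩
  have hval : P.val * (P⁻¹).val = 1 := by
    rw [← Units.val_mul, mul_inv_cancel, Units.val_one]
  have hval' : (P⁻¹).val * P.val = 1 := by
    rw [← Units.val_mul, inv_mul_cancel, Units.val_one]
  have hst := fun d => Pool.Agent.TH164.Spin.stabP hcl h3 h4 h5
    (fun i j hij h => hij (h8 i j h.1 h.2)) hHal
    (fun j => (hΓ j).algebraic) hval hval' hder hPE hB1
    (Pool.Agent.TH164.A1.inv_mem_entries fun i j => Pool.Agent.TH164.A1.mem_QA.2 (hB i j))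
    (show P.val * B ∈ Pool.Agent.TH164.A1.carr H from ⟨g₁, hg₁, hPB⟩) hWustholz hdetP d
  rintro g ⟨a, ha, v, hv, hgv⟩
  have h6 := Pool.Agent.TH164.Spin.all_pres hcl h3 (fun d => (hst d).1) (fun d => (hst d).2) hv a
  rw [Pool.Agent.TH164.Spin.bd_apply, ← hgv] at h6
  obtain ⟨y, hy1, hy2⟩ := hHal.mem_of_pres h6 (show g.val * (g⁻¹).val = 1 by
    rw [← Units.val_mul, mul_inv_cancel, Units.val_one]) (show (g⁻¹).val * g.val = 1 by
    rw [← Units.val_mul, inv_mul_cancel, Units.val_one])
  rw [← Units.ext hy2]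
  exact hy1

end Pool.Agent.Results.MP_caab05_ag.ProductsOfK3Surfaces
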