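import Pool.Agent.TH30.PD.KSMain

/-!
# The periods of a K3 surface and of its Kuga-Satake variety

Motives enter through their realisations `Obj`: bases indexed by `J`, the period matrix `c` and the
operator `P` on `H_B ⊗ ℂ` which is `p` on `H^{p,q}`; `tate` is `ℚ(-1)`, with period `2πi`.

`𝓜` is a class of motives over fields of algebraic numbers closed under tensor products and duals on
which Hodge classes have algebraic de Rham coordinates (`IsTensorClass`; motives of abelian type,
by Deligne and André). `HasTwoPeriods` is Chudnovsky's theorem for abelian varieties. A pair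
`V`, `N` is a Kuga-Satake pair (`KugaSatake`) if `V` has weight zero, `N` has types `(1,0)`,
`(0,1)`, and `N` carries a multiplication `κ : V ⊗ V → End N` as the first cohomology of the
Kuga-Satake variety does, for `V = H²(S)_prim(1)`.

For such a pair the fields of periods of `V ⊕ ℚ(-1)` (that is of the K3 surface) and of `N` (that
is of its Kuga-Satake variety) have the same transcendence degree, which is at least two, and the
Mumford-Tate groups have the same dimension.
-/

set_option autoImplicit false

open Matrix Algebra

namespace Pool.Agent.Results.MP_caab05_ag.TwoIndependentPeriods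

open Pool.Agent.TH30.PD

/-- Every nonzero motive with Hodge types `(1,0)` and `(0,1)` has two algebraically independent
periods. -/
def HasTwoPeriods (𝓜 : Obj → Prop) : Prop :=
  ∀ N, 𝓜 N → Nonempty N.J → N.P * N.P = N.P → N.P + cj N.P = 1 →
    2 ≤ Algebra.trdeg ℚ (IntermediateField.adjoin ℚ (entries N.c))

theorem result {𝓜 : Obj → Prop} (h𝓜 : IsTensorClass 𝓜) (hC : HasTwoPeriods 𝓜) (V N : Obj)
    (hV : 𝓜 V) (hN : 𝓜 N) (κ : V.J → V.J → Matrix N.J N.J ℚ) (Ψ : Matrix N.J N.J ℚ)
    (hKS : KugaSatake V N κ Ψ) (K : IntermediateField ℚ ℂ) [Algebra.IsAlgebraic ℚ K] :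
    2 ≤ Algebra.trdeg ℚ (periodField K (V.sum tate).c) ∧
    Algebra.trdeg ℚ (periodField K (V.sum tate).c) = Algebra.trdeg ℚ (periodField K N.c) ∧
    Module.finrank ℚ (lieMT (V.sum tate).P) = Module.finrank ℚ (lieMT N.P) := by
  have h1 := trdeg_eq_KS h𝓜 hV hN hKS K
  refine ⟨?_, h1, finrank_eq_KS hKS⟩
  rw [h1]
  have hne : Nonempty N.J := by
    by_contra h
    rw [not_nonempty_iff] at h
    exact hKS.ne_zero (Subsingleton.elim _ _)
  refine (hC N hN hne hKS.idem hKS.weight_one).trans ?_
  have hle : IntermediateField.adjoin ℚ (entries N.c) ≤ periodField K N.c :=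
    IntermediateField.adjoin.mono ℚ _ _ Set.subset_union_right
  exact trdeg_le_of_injective (IntermediateField.inclusion hle)
    (IntermediateField.inclusion hle).injective

end Pool.Agent.Results.MP_caab05_ag.TwoIndependentPeriods
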